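import Pool.Agent.W97.V20.Stm

/-!
Minimality of the curve `y² = x³ - 143x² - 169x` and small point counts.
-/

set_option autoImplicit false

namespace Pool.Agent.W237.V20.MIN

open Pool.Agent.W97.MT (IsGloballyMinimal affCount ap)
open Pool.Agent.W97.V20 (E4 E13 IsSplit S_MIN)
open WeierstrassCurve

theorem eq4 (p : ℕ) (P : ZMod p × ZMod p) :
    (E4.map (Int.castRingHom (ZMod p))).toAffine.Equation P.1 P.2 ↔
      P.2 ^ 2 = P.1 ^ 3 - 11 * P.1 ^ 2 - P.1 := by
  have ha1 : (E4.map (Int.castRingHom (ZMod p))).a₁ = 0 := by simp [E4]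
  have ha2 : (E4.map (Int.castRingHom (ZMod p))).a₂ = -11 := by simp [E4]
  have ha3 : (E4.map (Int.castRingHom (ZMod p))).a₃ = 0 := by simp [E4]
  have ha4 : (E4.map (Int.castRingHom (ZMod p))).a₄ = -1 := by simp [E4]
  have ha6 : (E4.map (Int.castRingHom (ZMod p))).a₆ = 0 := by simp [E4]
  rw [WeierstrassCurve.Affine.equation_iff, ha1, ha2, ha3, ha4, ha6]
  constructor <;> intro h <;> linear_combination h

theorem eq13 (p : ℕ) (P : ZMod p × ZMod p) :
    (E13.map (Int.castRingHom (ZMod p))).toAffine.Equation P.1 P.2 ↔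
      P.2 ^ 2 = P.1 ^ 3 - 143 * P.1 ^ 2 - 169 * P.1 := by
  have ha1 : (E13.map (Int.castRingHom (ZMod p))).a₁ = 0 := by simp [E13]
  have ha2 : (E13.map (Int.castRingHom (ZMod p))).a₂ = -143 := by simp [E13]
  have ha3 : (E13.map (Int.castRingHom (ZMod p))).a₃ = 0 := by simp [E13]
  have ha4 : (E13.map (Int.castRingHom (ZMod p))).a₄ = -169 := by simp [E13]
  have ha6 : (E13.map (Int.castRingHom (ZMod p))).a₆ = 0 := by simp [E13]
  rw [WeierstrassCurve.Affine.equation_iff, ha1, ha2, ha3, ha4, ha6]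
  constructor <;> intro h <;> linear_combination h

theorem aff4 (p : ℕ) [NeZero p] : affCount E4 p =
    (Finset.univ.filter (fun P : ZMod p × ZMod p =>
      P.2 ^ 2 = P.1 ^ 3 - 11 * P.1 ^ 2 - P.1)).card := by
  unfold affCount
  rw [Nat.card_congr (Equiv.subtypeEquivRight (eq4 p)), Nat.card_eq_fintype_card,
    Fintype.card_subtype]

theorem aff13 (p : ℕ) [NeZero p] : affCount E13 p =
    (Finset.univ.filter (fun P : ZMod p × ZMod p =>
      P.2 ^ 2 = P.1 ^ 3 - 143 * P.1 ^ 2 - 169 * P.1)).card := by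
  unfold affCount
  rw [Nat.card_congr (Equiv.subtypeEquivRight (eq13 p)), Nat.card_eq_fintype_card,
    Fintype.card_subtype]

theorem delta13 : E13.Δ = 2000 * 13 ^ 6 := by
  simp [WeierstrassCurve.Δ, WeierstrassCurve.b₂, WeierstrassCurve.b₄, WeierstrassCurve.b₆,
    WeierstrassCurve.b₈, E13]

theorem c413 : E13.c₄ = 335296 := by
  simp [WeierstrassCurve.c₄, WeierstrassCurve.b₂, WeierstrassCurve.b₄, E13]

theorem min13 : IsGloballyMinimal E13 := by
  refine ⟨by rw [delta13]; norm_num, ?_⟩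
  intro W' C h
  have h1 := congrArg WeierstrassCurve.Δ h
  rw [WeierstrassCurve.variableChange_Δ, WeierstrassCurve.map_Δ, WeierstrassCurve.map_Δ,
    delta13] at h1
  set r : ℚ := ((C.u⁻¹ : ℚˣ) : ℚ) with hr
  have hr0 : r ≠ 0 := Units.ne_zero _
  have h2 : r ^ 12 * 9653618000 = (W'.Δ : ℚ) := by
    norm_num at h1
    exact h1
  have h3 : (r.num : ℚ) ^ 12 * 9653618000 = (W'.Δ : ℚ) * (r.den : ℚ) ^ 12 := by
    have h5 : (r.num : ℚ) = r * r.den := by
      rw [eq_comm, Rat.mul_den_eq_num]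
    rw [h5, ← h2]; ring
  have h3' : r.num ^ 12 * 9653618000 = W'.Δ * (r.den : ℤ) ^ 12 := by exact_mod_cast h3
  have hcop : IsCoprime ((r.den : ℤ) ^ 12) (r.num ^ 12) := by
    apply IsCoprime.pow
    rw [Int.isCoprime_iff_gcd_eq_one, Int.gcd_comm]
    have := r.reduced
    rwa [Int.gcd, Int.natAbs_natCast]
  have hdvd : ((r.den : ℤ) ^ 12) ∣ (9653618000 : ℤ) := by
    apply hcop.dvd_of_dvd_mul_left
    rw [h3']
    exact Dvd.intro_left _ rfl
  have hdvd' : r.den ^ 12 ∣ 9653618000 := by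
    have : ((r.den ^ 12 : ℕ) : ℤ) ∣ ((9653618000 : ℕ) : ℤ) := by
      push_cast
      exact hdvd
    exact Int.natCast_dvd_natCast.1 this
  have hden : r.den = 1 := by
    have hle : r.den ≤ 6 := by
      by_contra hc
      push Not at hc
      have h6 : 7 ^ 12 ≤ r.den ^ 12 := Nat.pow_le_pow_left hc 12
      have h7 := Nat.le_of_dvd (by norm_num) hdvd'
      norm_num at h6
      omega
    have hpos := r.den_pos
    interval_cases hh : r.den
    · rfl
    all_goals norm_num at hdvd'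
  rw [hden] at h3'
  have h8 : W'.Δ = r.num ^ 12 * 9653618000 := by rw [h3']; ring
  rw [h8, abs_mul, abs_pow, delta13]
  have hn : 1 ≤ |r.num| := Int.one_le_abs (Rat.num_ne_zero.2 hr0)
  have : (1 : ℤ) ≤ |r.num| ^ 12 := one_le_pow₀ hn
  norm_num
  linarith

theorem s_min : S_MIN := by
  refine ⟨min13, c413, delta13, ⟨?_, ?_, ?_⟩, ?_, ?_, ?_, ?_⟩
  · rw [delta13]; norm_num
  · rw [c413]; norm_num
  · unfold ap
    rw [aff13]
    have : (Finset.univ.filter (fun P : ZMod 5 × ZMod 5 =>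
      P.2 ^ 2 = P.1 ^ 3 - 143 * P.1 ^ 2 - 169 * P.1)).card = 4 := by decide +kernel
    rw [this]
    norm_num
  · rw [aff4]; decide
  · rw [aff4]; decide
  · rw [aff4]; decide +kernel
  · intro p hp
    haveI : Fact p.Prime := ⟨hp⟩
    haveI : NeZero p := ⟨hp.ne_zero⟩
    rw [aff4]
    have h1 : (Finset.univ.filter (fun P : ZMod p × ZMod p =>
        P.2 ^ 2 = P.1 ^ 3 - 11 * P.1 ^ 2 - P.1)).card ≤
        2 * (Finset.univ : Finset (ZMod p)).card := by
      apply Finset.card_le_mul_card_image_of_maps_to (f := Prod.fst)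
      · intro _ _; exact Finset.mem_univ _
      · intro x _
        rcases Finset.eq_empty_or_nonempty ((Finset.univ.filter (fun P : ZMod p × ZMod p =>
          P.2 ^ 2 = P.1 ^ 3 - 11 * P.1 ^ 2 - P.1)).filter (fun P => P.1 = x)) with h | h
        · rw [h]; simp
        · obtain ⟨⟨x0, y0⟩, h0⟩ := h
          simp only [Finset.mem_filter, Finset.mem_univ, true_and] at h0
          obtain ⟨h0, rfl⟩ := h0
          refine le_trans (Finset.card_le_card (t := {(x0, y0), (x0, -y0)}) ?_)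
            Finset.card_le_two
          rintro ⟨x1, y1⟩ h1
          simp only [Finset.mem_filter, Finset.mem_univ, true_and] at h1
          obtain ⟨h1, rfl⟩ := h1
          have h2 : (y1 - y0) * (y1 - (-y0)) = 0 := by linear_combination h1 - h0
          rcases mul_eq_zero.1 h2 with h3 | h3
          · rw [sub_eq_zero.1 h3]; simp
          · rw [sub_eq_zero.1 h3]; simp
    rwa [Finset.card_univ, ZMod.card] at h1

end Pool.Agent.W237.V20.MIN
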