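import Pool.Agent.W97.V20.Stm

/-!
The Hecke relations determine the coefficients of the `L`-series.
-/

set_option autoImplicit false

namespace Pool.Agent.W237.V20.MULT

open Pool.Agent.W97.MT (ap)
open Pool.Agent.W97.V20 (anPow an S_MULT)

section

variable {W : WeierstrassCurve ℤ} {A : ℕ → ℤ} (h1 : A 1 = 1)
  (h2 : ∀ p : ℕ, p.Prime → A p = ap W p)
  (h3 : ∀ p : ℕ, p.Prime → ∀ n : ℕ, 0 < n →
    A (p * n) + (if (p : ℤ) ∣ W.Δ then 0 else p) * (if p ∣ n then A (n / p) else 0) = A p * A n)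

include h1 h3

theorem pow_mul {p m : ℕ} (hp : p.Prime) (hm : 0 < m) (hpm : ¬ p ∣ m) :
    ∀ k : ℕ, A (p ^ k * m) = A (p ^ k) * A m ∧ A (p ^ (k + 1) * m) = A (p ^ (k + 1)) * A m := by
  intro k
  induction k with
  | zero =>
    refine ⟨by rw [pow_zero, one_mul, h1, one_mul], ?_⟩
    have h4 := h3 p hp m hm
    rw [if_neg hpm, mul_zero, add_zero] at h4
    rw [zero_add, pow_one, h4]
  | succ k ih =>
    refine ⟨ih.2, ?_⟩
    have hpos : 0 < p := hp.pos
    have h4 := h3 p hp (p ^ (k + 1) * m) (by positivity)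
    have h5 := h3 p hp (p ^ (k + 1)) (by positivity)
    rw [if_pos (Dvd.dvd.mul_right (dvd_pow_self p (by omega)) m)] at h4
    rw [if_pos (dvd_pow_self p (by omega))] at h5
    have e1 : p ^ (k + 1) * m / p = p ^ k * m := by
      rw [pow_succ', mul_assoc, Nat.mul_div_cancel_left _ hpos]
    have e2 : p ^ (k + 1) / p = p ^ k := by
      rw [pow_succ', Nat.mul_div_cancel_left _ hpos]
    have e3 : p * (p ^ (k + 1) * m) = p ^ (k + 1 + 1) * m := by ring
    have e4 : p * (p ^ (k + 1)) = p ^ (k + 1 + 1) := by ring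
    rw [e1, e3, ih.1, ih.2] at h4
    rw [e2, e4] at h5
    linear_combination h4 - A m * h5

include h2

theorem pow_eq {p : ℕ} (hp : p.Prime) :
    ∀ k : ℕ, A (p ^ k) = anPow W p k ∧ A (p ^ (k + 1)) = anPow W p (k + 1) := by
  intro k
  induction k with
  | zero =>
    refine ⟨by rw [pow_zero, h1, anPow], by rw [zero_add, pow_one, anPow, h2 p hp]⟩
  | succ k ih =>
    refine ⟨ih.2, ?_⟩
    have hpos : 0 < p := hp.pos
    have h5 := h3 p hp (p ^ (k + 1)) (by positivity)
    rw [if_pos (dvd_pow_self p (by omega))] at h5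
    have e2 : p ^ (k + 1) / p = p ^ k := by
      rw [pow_succ', Nat.mul_div_cancel_left _ hpos]
    have e4 : p * (p ^ (k + 1)) = p ^ (k + 1 + 1) := by ring
    rw [e2, e4, ih.1, ih.2, h2 p hp] at h5
    have e5 : anPow W p (k + 1 + 1) =
      ap W p * anPow W p (k + 1) - (if (p : ℤ) ∣ W.Δ then 0 else p) * anPow W p k := by
      rw [anPow]
    rw [e5]
    linear_combination h5

end

theorem an_pow_mul (W : WeierstrassCurve ℤ) {a p n : ℕ} (hp : p.Prime) (ha : a ≠ 0)
    (hpa : ¬ p ∣ a) : an W (p ^ n * a) = anPow W p n * an W a := by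
  unfold an
  have hp0 : p ^ n ≠ 0 := pow_ne_zero _ hp.ne_zero
  have hcop : Nat.Coprime (p ^ n) a := Nat.Coprime.pow_left n ((Nat.Prime.coprime_iff_not_dvd hp).2 hpa)
  rw [if_neg (mul_ne_zero hp0 ha), if_neg ha, Nat.factorization_mul_of_coprime hcop,
    Finsupp.prod_add_index_of_disjoint (Nat.Coprime.disjoint_primeFactors hcop),
    hp.factorization_pow]
  congr 1
  rw [Finsupp.prod_single_index]
  rw [anPow]

theorem s_mult : S_MULT := by
  intro W A h1 h2 h3 n
  induction n using Nat.recOnPrimePow with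
  | zero => intro h; omega
  | one =>
    intro _
    unfold an
    rw [if_neg one_ne_zero, Nat.factorization_one, Finsupp.prod_zero_index, h1]
  | prime_pow_mul a p n hp hpa hn ih =>
    intro hpos
    have ha : 0 < a := Nat.pos_of_ne_zero (by rintro rfl; simp at hpos)
    rw [an_pow_mul W hp ha.ne' hpa, ih ha, (pow_mul h1 h3 hp ha hpa n).1, (pow_eq h1 h2 h3 hp n).1]

end Pool.Agent.W237.V20.MULT
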