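import Pool.Agent.W97.V20.Stm

/-!
Substitution along the imaginary axis.
-/

set_option autoImplicit false

open Set Filter Topology MeasureTheory

namespace Pool.Agent.W237.V20.SUBST

theorem s_subst : Pool.Agent.W97.V20.S_SUBST := by
  intro σ γ hσ hγ hd h0 h1
  have hcont : ContinuousOn σ (Ioi 0) := fun u hu => (hd u hu).continuousAt.continuousWithinAt
  have hmono : StrictMonoOn σ (Ioi 0) := by
    apply strictMonoOn_of_deriv_pos (convex_Ioi 0) hcont
    intro u hu
    rw [interior_Ioi] at hu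
    rw [(hd u hu).deriv]
    have h2 := hγ u hu
    have h3 : 0 < Real.sqrt (σ u ^ 4 + 22 * σ u ^ 2 + 125) := Real.sqrt_pos.2 (by positivity)
    positivity
  have himg : σ '' Ioi 0 = Ioi 0 := by
    apply Subset.antisymm
    · rintro _ ⟨u, hu, rfl⟩
      exact hσ u hu
    · intro s hs
      have hs' : 0 < s := hs
      have e1 : ∀ᶠ u in 𝓝[>] (0 : ℝ), σ u < s := h0.eventually (gt_mem_nhds hs')
      have e2 : ∀ᶠ u in 𝓝[>] (0 : ℝ), u ∈ Ioi (0 : ℝ) := self_mem_nhdsWithin
      obtain ⟨a, ha, ha0⟩ := (e1.and e2).exists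
      have e3 : ∀ᶠ u in atTop, s < σ u := h1.eventually (eventually_gt_atTop s)
      obtain ⟨b, hb, hb0⟩ := (e3.and (eventually_gt_atTop a)).exists
      have hsub : Icc a b ⊆ Ioi (0 : ℝ) := fun x hx => lt_of_lt_of_le ha0 hx.1
      have h2 := intermediate_value_Icc hb0.le (hcont.mono hsub)
      obtain ⟨u, hu, hus⟩ := h2 ⟨ha.le, hb.le⟩
      exact ⟨u, hsub hu, hus⟩
  have h2 := integral_image_eq_integral_abs_deriv_smul (s := Ioi (0 : ℝ)) (f := σ)
    (f' := fun u => γ u * Real.sqrt (σ u ^ 4 + 22 * σ u ^ 2 + 125)) measurableSet_Ioi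
    (fun u hu => (hd u hu).hasDerivWithinAt) hmono.injOn
    (fun s => (Real.sqrt (s ^ 4 + 22 * s ^ 2 + 125))⁻¹)
  rw [himg] at h2
  rw [h2]
  apply setIntegral_congr_fun measurableSet_Ioi
  intro u hu
  have h3 : 0 < Real.sqrt (σ u ^ 4 + 22 * σ u ^ 2 + 125) := Real.sqrt_pos.2 (by positivity)
  have h4 := hγ u hu
  simp only [smul_eq_mul]
  rw [abs_of_pos (by positivity), mul_assoc, mul_inv_cancel₀ h3.ne', mul_one]

end Pool.Agent.W237.V20.SUBST
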